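import Pool.Agent.H.MP_cba12a_lc.S10.Alg10
import Pool.Agent.H.MP_cba12a_lc.Final5

/-!
The learner: the candidates for short and for long terms, and the candidates of the pivotal test.
-/

namespace Pool.Agent.H.MP_cba12a_lc.MG

open Pool.Agent.H.MP_cba12a_lc Pool.Agent.H.MP_5be563_lc.PT

/-- candidates at a leaf -/
def candsM (N r k M D A5 N5 k5 n : ℕ) (S : Samples) (α : List Lit) : List (List Lit) :=
  cands10 N r k M D n S α ++ good5 A5 N5 k5 (allLits n) S α

/-- the learner -/
def coreM (K K' B R N k J r m M D A5 N5 k5 n : ℕ) (S : Samples) : List (List Lit) :=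
  ((tree6 K N k (allLits n) S J).filter fun α => rt K S α) ++
    greedy6 K' B R S (((tree6 K N k (allLits n) S J).filter fun α => !(rt K S α)).flatMap
      fun α => candsM N r m M D A5 N5 k5 n S α)

theorem lt_candsM {n N r k M D A5 N5 k5 : ℕ} {S : Samples} {α C : List Lit}
    (hα : ∀ l ∈ α, l.1 < n) (hC : C ∈ candsM N r k M D A5 N5 k5 n S α) : ∀ l ∈ C, l.1 < n := by
  unfold candsM at hC
  rcases List.mem_append.1 hC with hC | hC
  · exact lt_cands10 hα hC
  · exact (mem_good5 hα hC).2

section poly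

variable {β : Type} [Enc β]

theorem poly_coreM (m M : ℕ) {K K' B R N k J r D A5 N5 k5 n : β → ℕ} {S : β → Samples}
    (hK : Poly K) (hK' : Poly K') (hB : Poly B) (hR : Poly R) (hN : Poly N) (hk : Poly k)
    (hJ : Poly J) (hr : Poly r) (hD : Poly D) (hA5 : Poly A5) (hN5 : Poly N5) (hk5 : Poly k5)
    (hn : Poly n) (hS : Poly S) :
    Poly (fun p => coreM (K p) (K' p) (B p) (R p) (N p) (k p) (J p) (r p) m M (D p) (A5 p)
      (N5 p) (k5 p) (n p) (S p)) := by
  unfold coreM candsM cands10
  have h := poly_tree6 hK hN hk hn hS hJ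
  have h2 : Poly (fun p : β × List Lit => longC10 (N p.1) m M (D p.1) (allLits (n p.1))
      (S p.1) p.2) :=
    poly_longC10 m M (by fun_prop) (by fun_prop) (by fun_prop) (by fun_prop) (by fun_prop)
  have h3 : Poly (fun p : β × List Lit => good5 (A5 p.1) (N5 p.1) (k5 p.1) (allLits (n p.1))
      (S p.1) p.2) :=
    poly_good5 (by fun_prop) (by fun_prop) (by fun_prop) (by fun_prop) (by fun_prop) (by fun_prop)
  fun_prop

end poly

end Pool.Agent.H.MP_cba12a_lc.MG
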