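import Pool.Agent.H.MP_cba12a_lc.MG.LLLm

/-!
Isolation of a term all variables of which occur in few terms, in a family which may contain other,
long terms.
-/

namespace Pool.Agent.H.MP_cba12a_lc.MG

open Finset Pool.Agent.H.MP_cba12a_lc

variable {n : ℕ}

/-- the terms in `Bt` have only variables of small degree, and a term that shares a variable with
one of them is in `Bt` or long -/
structure Mid (k ℓ1 : ℕ) (G Bt : Finset (Finset (Fin n × Bool))) : Prop where
  sub : Bt ⊆ G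
  deg : ∀ A ∈ Bt, ∀ j ∈ vs A, (G.filter fun B => j ∈ vs B).card ≤ k
  nbr : ∀ A ∈ Bt, ∀ D ∈ G, (∃ i ∈ vs A, i ∈ vs D) → D ∈ Bt ∨ ℓ1 ≤ D.card

/-- **Isolation.** -/
theorem isolation_m {k lam ℓ1 μ : ℕ} {κ : ℝ} {G Bt : Finset (Finset (Fin n × Bool))}
    (hk : 1 ≤ k) (hlam1 : 1 ≤ lam) (hlam : (3 : ℝ) * k * (3 / 4) ^ lam ≤ 1)
    (hM : Mid k ℓ1 G Bt)
    (hcons : ∀ T ∈ G, (vs T).card = T.card)
    (hlen : ∀ T ∈ G, 2 * k * lam ≤ T.card) {T : Finset (Fin n × Bool)}
    (hT : T ∈ Bt) {z : Fin n → Bool} (hz : SatT T z) (hz' : ∀ A ∈ G, A ≠ T → ¬ SatT A z)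
    (hκ : 0 ≤ κ) (hnu : κ * 2 ^ n ≤ nu G) (hℓ1 : 2 * T.card + μ ≤ ℓ1)
    (hμ : (1 / 2 : ℝ) ^ μ ≤ (3 / 4) ^ lam * ((2 / 3) ^ (2 * T.card) * κ)) :
    ∃ i ∈ vs T, (nu G : ℝ) ≤ 9 ^ T.card * ((univ.filter (Iso G T i)).card : ℝ) := by
  classical
  have hTG : T ∈ G := hM.sub hT
  obtain ⟨P, hPG, X0, hTX0, hPX0, hX0c, hPc, hout0⟩ := exists_closed (G := Bt) (lam := lam) hk hlam1
    (fun A hA => hcons A (hM.sub hA)) (fun A hA => hlen A (hM.sub hA)) (fun i => by
      by_cases h : ∃ A ∈ Bt, i ∈ vs A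
      · obtain ⟨A, hA, hi⟩ := h
        exact (card_le_card (filter_subset_filter _ hM.sub)).trans (hM.deg A hA i hi)
      · rw [filter_false_of_mem, card_empty]
        · exact Nat.zero_le _
        · intro A hA hi
          exact h ⟨A, hA, hi⟩) hT
  obtain ⟨X, hXdef⟩ : ∃ X, X = vs T ∪ P.biUnion vs := ⟨_, rfl⟩
  have hXX0 : X ⊆ X0 := by
    rw [hXdef]
    exact union_subset hTX0 (biUnion_subset.2 hPX0)
  have hTX : vs T ⊆ X := by rw [hXdef]; exact subset_union_left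
  have hPX : ∀ A ∈ P, vs A ⊆ X := fun A hA => by
    rw [hXdef]
    exact (subset_biUnion_of_mem vs hA).trans subset_union_right
  have hXBt : ∀ j ∈ X, ∃ A ∈ Bt, j ∈ vs A := by
    intro j hj
    rw [hXdef, mem_union, mem_biUnion] at hj
    rcases hj with hj | ⟨A, hA, hj⟩
    · exact ⟨T, hT, hj⟩
    · exact ⟨A, mem_of_mem_erase (hPG hA), hj⟩
  have hXc : X.card ≤ 2 * T.card := (card_le_card hXX0).trans hX0c
  have hout : ∀ A ∈ Bt, A ≠ T → A ∉ P → lam ≤ (outs X A).card := by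
    intro A hA h1 h2
    refine (hout0 A hA h1 h2).trans (card_le_card ?_)
    unfold outs
    intro l hl
    rw [mem_filter] at hl ⊢
    exact ⟨hl.1, fun h => hl.2 (hXX0 h)⟩
  -- an unblocked variable
  have hblk : ∀ A ∈ P, ∃ l ∈ A, z l.1 ≠ l.2 := by
    intro A hA
    have h1 := mem_erase.1 (hPG hA)
    have := hz' A (hM.sub h1.2) h1.1
    unfold SatT at this
    push Not at this
    exact this
  have : Nonempty (Fin n × Bool) := by
    obtain ⟨l, _⟩ := card_pos.1 (lt_of_le_of_lt (Nat.zero_le _) hPc)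
    exact ⟨l⟩
  choose! w hw1 hw2 using hblk
  obtain ⟨i, hiT, hiw⟩ : ∃ i ∈ vs T, i ∉ P.image fun A => (w A).1 := by
    by_contra hcon
    push Not at hcon
    have h1 : vs T ⊆ P.image fun A => (w A).1 := hcon
    have h2 := card_le_card h1
    rw [hcons T hTG] at h2
    have h3 : (P.image fun A => (w A).1).card ≤ P.card := card_image_le
    omega
  refine ⟨i, hiT, ?_⟩
  -- the family outside X
  set G' := G.filter fun A => A ≠ T ∧ A ∉ P with hG'
  set F := G'.image (outs X) with hF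
  set Fm := (G'.filter fun A => A ∈ Bt).image (outs X) with hFm
  set O := G.filter fun A => Disjoint (vs A) X with hO
  have hTpos : ∀ A ∈ G, 0 < A.card := by
    intro A hA
    have := hlen A hA
    have h3 : 0 < 2 * k * lam := by positivity
    omega
  have hlong : ∀ A ∈ G, ℓ1 ≤ A.card → μ ≤ (outs X A).card := by
    intro A hA hl
    have h1 : (vs A \ X).card ≤ (outs X A).card := by
      rw [← vs_outs]
      exact vs_card_le _
    have h2 : (vs A).card - X.card ≤ (vs A \ X).card := le_card_sdiff _ _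
    rw [hcons A hA] at h2
    omega
  have hlenF : ∀ A ∈ Fm, lam ≤ A.card := by
    intro A hA
    rw [hFm, mem_image] at hA
    obtain ⟨B, hB, rfl⟩ := hA
    rw [mem_filter, hG', mem_filter] at hB
    exact hout B hB.2 hB.1.2.1 hB.1.2.2
  have hdegF : ∀ j, (∃ A ∈ Bt, j ∈ vs A) → (F.filter fun A => j ∈ vs A).card ≤ k := by
    rintro j ⟨A0, hA0, hj0⟩
    calc (F.filter fun A => j ∈ vs A).card ≤
        ((G.filter fun A => j ∈ vs A).image (outs X)).card := by
          refine card_le_card ?_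
          intro A hA
          rw [mem_filter, hF, mem_image] at hA
          obtain ⟨⟨B, hB, rfl⟩, hj⟩ := hA
          rw [hG', mem_filter] at hB
          rw [mem_image]
          exact ⟨B, mem_filter.2 ⟨hB.1, vs_mono (outs_sub X B) hj⟩, rfl⟩
      _ ≤ (G.filter fun A => j ∈ vs A).card := card_image_le
      _ ≤ k := hM.deg A0 hA0 j hj0
  have hreadF : ∀ A ∈ Fm, ∀ j ∈ vs A, (F.filter fun A => j ∈ vs A).card ≤ k := by
    intro A hA j hj
    rw [hFm, mem_image] at hA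
    obtain ⟨B, hB, rfl⟩ := hA
    exact hdegF j ⟨B, (mem_filter.1 hB).2, vs_mono (outs_sub X B) hj⟩
  have hcl : ∀ D ∈ G', (∃ A ∈ Bt, ∃ i ∈ vs A, i ∈ vs D) → outs X D ∈ Fm ∨ μ ≤ (outs X D).card := by
    rintro D hD ⟨A, hA, j, hjA, hjD⟩
    have hDG : D ∈ G := (mem_filter.1 hD).1
    rcases hM.nbr A hA D hDG ⟨j, hjA, hjD⟩ with h | h
    · left
      rw [hFm]
      exact mem_image_of_mem _ (mem_filter.2 ⟨hD, h⟩)
    · exact Or.inr (hlong D hDG h)
  have hnbrF : ∀ A ∈ Fm, ∀ D ∈ F, (∃ i ∈ vs A, i ∈ vs D) → D ∈ Fm ∨ μ ≤ D.card := by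
    rintro A hA D hD ⟨j, hjA, hjD⟩
    rw [hFm, mem_image] at hA
    obtain ⟨A', hA', rfl⟩ := hA
    rw [hF, mem_image] at hD
    obtain ⟨D', hD', rfl⟩ := hD
    exact hcl D' hD' ⟨A', (mem_filter.1 hA').2, j, vs_mono (outs_sub X A') hjA,
      vs_mono (outs_sub X D') hjD⟩
  have hOF : O ⊆ F := by
    intro A hA
    rw [hO, mem_filter] at hA
    have hne : (vs A).Nonempty := by
      rw [← card_pos, hcons A hA.1]
      exact hTpos A hA.1
    have hnX : ¬ vs A ⊆ X := by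
      intro hc
      obtain ⟨j, hj⟩ := hne
      exact (disjoint_left.1 hA.2 hj) (hc hj)
    rw [hF, mem_image]
    refine ⟨A, ?_, ?_⟩
    · rw [hG', mem_filter]
      exact ⟨hA.1, fun h => hnX (h ▸ hTX), fun h => hnX (hPX A h)⟩
    · unfold outs
      refine filter_true_of_mem ?_
      intro l hl
      exact disjoint_left.1 hA.2 (mem_vs.2 ⟨l, hl, rfl⟩)
  have htouch : ∀ D ∈ F \ O, ∃ B ∈ G', outs X B = D ∧ ∃ j ∈ X, j ∈ vs B := by
    intro A hA
    rw [mem_sdiff, hF, mem_image] at hA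
    obtain ⟨⟨B, hB, rfl⟩, hj⟩ := hA
    refine ⟨B, hB, rfl, ?_⟩
    by_contra hcon
    push Not at hcon
    apply hj
    have hdis : Disjoint (vs B) X := disjoint_left.2 fun j hj hjX => hcon j hjX hj
    have e : outs X B = B := by
      unfold outs
      refine filter_true_of_mem ?_
      intro l hl
      exact disjoint_left.1 hdis (mem_vs.2 ⟨l, hl, rfl⟩)
    rw [e, hO, mem_filter]
    exact ⟨(mem_filter.1 hB).1, hdis⟩
  have hFO' : ∀ D ∈ F \ O, D ∈ Fm ∨ μ ≤ D.card := by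
    intro D hD
    obtain ⟨B, hB, rfl, j, hjX, hjB⟩ := htouch D hD
    obtain ⟨A, hA, hjA⟩ := hXBt j hjX
    exact hcl B hB ⟨A, hA, j, hjA, hjB⟩
  have hFO : (F \ O).card ≤ k * X.card := by
    calc (F \ O).card ≤ ((X.biUnion fun j => G.filter fun A => j ∈ vs A).image (outs X)).card := by
          refine card_le_card ?_
          intro A hA
          obtain ⟨B, hB, rfl, j, hjX, hjB⟩ := htouch A hA
          rw [mem_image]
          exact ⟨B, mem_biUnion.2 ⟨j, hjX, mem_filter.2 ⟨(mem_filter.1 hB).1, hjB⟩⟩, rfl⟩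
      _ ≤ (X.biUnion fun j => G.filter fun A => j ∈ vs A).card := card_image_le
      _ ≤ ∑ j ∈ X, (G.filter fun A => j ∈ vs A).card := card_biUnion_le
      _ ≤ ∑ _j ∈ X, k := sum_le_sum fun j hj => by
          obtain ⟨A, hA, hjA⟩ := hXBt j hj
          exact hM.deg A hA j hjA
      _ = k * X.card := by rw [sum_const, smul_eq_mul, mul_comm]
  have h9 : (0 : ℝ) ≤ 1 - (3 / 4) ^ lam := by
    have : (3 / 4 : ℝ) ^ lam ≤ 1 := pow_le_one₀ (by norm_num) (by norm_num)
    linarith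
  have h10 : (1 : ℝ) - (3 / 4) ^ lam ≤ 1 := by
    have : (0 : ℝ) ≤ (3 / 4) ^ lam := by positivity
    linarith
  have hGO : (nu G : ℝ) ≤ nu O := by exact_mod_cast nu_mono (filter_subset _ _)
  have hκ2 : (2 / 3 : ℝ) ^ (2 * T.card) * κ * 2 ^ n ≤
      (1 - (3 / 4 : ℝ) ^ lam) ^ (k * X.card) * nu O := by
    have e1 : (2 / 3 : ℝ) ^ (2 * T.card) ≤ (2 / 3) ^ X.card :=
      pow_le_pow_of_le_one (by norm_num) (by norm_num) hXc
    have e2 : (2 / 3 : ℝ) ^ (2 * T.card) ≤ (1 - (3 / 4 : ℝ) ^ lam) ^ (k * X.card) :=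
      e1.trans (bern hlam X.card)
    rw [mul_assoc]
    exact mul_le_mul e2 (hnu.trans hGO) (by positivity) (by positivity)
  have h1 := nu_union_ge_m hlenF hreadF hnbrF hlam hμ O hOF hFO' hFO hκ2 (F \ O) (subset_refl _)
  rw [union_sdiff_of_subset hOF] at h1
  have h2 : (2 / 3 : ℝ) ^ X.card ≤ (1 - (3 / 4) ^ lam) ^ (F \ O).card :=
    (bern hlam X.card).trans (pow_le_pow_of_le_one h9 h10 hFO)
  have h3 : (2 / 3 : ℝ) ^ X.card * nu G ≤ nu F := by
    calc (2 / 3 : ℝ) ^ X.card * nu G ≤ (2 / 3 : ℝ) ^ X.card * nu O :=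
          mul_le_mul_of_nonneg_left hGO (by positivity)
      _ ≤ (1 - (3 / 4) ^ lam) ^ (F \ O).card * nu O :=
          mul_le_mul_of_nonneg_right h2 (by positivity)
      _ ≤ nu F := h1
  -- independence
  have h4 : nu F ≤ (univ.filter fun x => SatT (pt X z) x ∧ ∀ A ∈ F, ¬ SatT A x).card *
      2 ^ (pt X z).card := by
    refine indep_ge (pt X z) (by rw [vs_pt, pt_card]) _ ?_
    intro j hj x
    rw [vs_pt] at hj
    have : ∀ A ∈ F, (SatT A (flp j x) ↔ SatT A x) := by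
      intro A hA
      refine satT_flp ?_ x
      rw [hF, mem_image] at hA
      obtain ⟨B, _, rfl⟩ := hA
      rw [vs_outs, mem_sdiff]
      exact fun h => h.2 hj
    exact ⟨fun h C hC => fun hs => h C hC ((this C hC).2 hs),
      fun h C hC => fun hs => h C hC ((this C hC).1 hs)⟩
  rw [pt_card] at h4
  have h5 : (univ.filter fun x => SatT (pt X z) x ∧ ∀ A ∈ F, ¬ SatT A x).card ≤
      (univ.filter (Iso G T i)).card := by
    refine card_le_card ?_
    intro x hx
    rw [mem_filter, satT_pt] at hx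
    rw [mem_filter]
    obtain ⟨_, hxX, hxF⟩ := hx
    refine ⟨mem_univ _, ?_, ?_⟩
    · intro l hl _
      rw [hxX l.1 (hTX (mem_vs.2 ⟨l, hl, rfl⟩))]
      exact hz l hl
    · intro A hA hAT
      by_cases hAP : A ∈ P
      · refine ⟨w A, hw1 A hAP, ?_, ?_⟩
        · intro hc
          exact hiw (mem_image.2 ⟨A, hAP, hc⟩)
        · rw [hxX _ (hPX A hAP (mem_vs.2 ⟨_, hw1 A hAP, rfl⟩))]
          exact hw2 A hAP
      · have := hxF (outs X A) (by
          rw [hF, mem_image]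
          exact ⟨A, mem_filter.2 ⟨hA, hAT, hAP⟩, rfl⟩)
        unfold SatT at this
        push Not at this
        obtain ⟨l, hl, hne⟩ := this
        unfold outs at hl
        rw [mem_filter] at hl
        refine ⟨l, hl.1, ?_, hne⟩
        intro hc
        exact hl.2 (hc ▸ hTX hiT)
  have h6 : (nu F : ℝ) ≤ ((univ.filter (Iso G T i)).card : ℝ) * 2 ^ X.card := by
    have : nu F ≤ (univ.filter (Iso G T i)).card * 2 ^ X.card :=
      h4.trans (Nat.mul_le_mul_right _ h5)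
    exact_mod_cast this
  have h7 : (nu G : ℝ) ≤ 3 ^ X.card * ((univ.filter (Iso G T i)).card : ℝ) := by
    have e1 : (3 / 2 : ℝ) ^ X.card * (2 / 3) ^ X.card = 1 := by
      rw [← mul_pow]; norm_num
    have e2 : (3 / 2 : ℝ) ^ X.card * 2 ^ X.card = 3 ^ X.card := by
      rw [← mul_pow]; norm_num
    calc (nu G : ℝ) = (3 / 2 : ℝ) ^ X.card * ((2 / 3) ^ X.card * nu G) := by
          rw [← mul_assoc, e1, one_mul]
      _ ≤ (3 / 2 : ℝ) ^ X.card * (((univ.filter (Iso G T i)).card : ℝ) * 2 ^ X.card) :=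
          mul_le_mul_of_nonneg_left (h3.trans h6) (by positivity)
      _ = (3 / 2 : ℝ) ^ X.card * 2 ^ X.card * ((univ.filter (Iso G T i)).card : ℝ) := by ring
      _ = _ := by rw [e2]
  refine h7.trans ?_
  refine mul_le_mul_of_nonneg_right ?_ (by positivity)
  calc (3 : ℝ) ^ X.card ≤ 3 ^ (2 * T.card) := pow_le_pow_right₀ (by norm_num) hXc
    _ = 9 ^ T.card := by rw [pow_mul]; norm_num

end Pool.Agent.H.MP_cba12a_lc.MG
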