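import Pool.Agent.H.MP_cba12a_lc.Detect5

/-!
Detection of a term by a variable which occurs in few terms.
-/

namespace Pool.Agent.H.MP_cba12a_lc.MG

open Finset Pool.Agent.H.MP_cba12a_lc Pool.Agent.H.MP_5be563_lc.PT

variable {n m : ℕ}

/-- **Detection.** -/
theorem detect_m {A N k kk : ℕ} {ω : Fin m → Fin n → Bool} {f g : (Fin n → Bool) → Bool}
    {α : List Lit} {G : Finset (Finset (Fin n × Bool))} {T : Finset (Fin n × Bool)} {i : Fin n}
    {τ ρ : ℝ} (hm : 0 < m) (hτ : 0 < τ) (hρτ : 256 * τ ≤ ρ)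
    (hαd : (α.map Prod.fst).Nodup) (hαn : ∀ l ∈ α, l.1 < n)
    (hGX : ∀ B ∈ G, Disjoint (vs B) (vs (toF n α)))
    (hgG : ∀ x, SatT (toF n α) x → (g x = true ↔ ∃ B ∈ G, SatT B x))
    (hcons : ∀ B ∈ G, (vs B).card = B.card)
    (hread : (G.filter fun B => i ∈ vs B).card ≤ k)
    (hT : T ∈ G) (hi : i ∈ vs T)
    (hIso : ρ * (2 * (2 * n + 1) ^ k * 2 ^ (α.length + 1)) ≤
      mu (fun x => decide (Iso G T i x)))
    (hfg : dst f g ≤ τ) (hrep : Rep f ω 0 τ) (hk : k ≤ kk)
    (hN1 : (2 * n + 1) ^ kk ≤ N) (hN2 : (1 / ρ) ^ 10 ≤ (N : ℝ))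
    (hA : 2 * τ * A ≤ 1) :
    ∃ D ∈ good5 A N kk (allLits n) (smp f ω) α, ∀ x : Fin n → Bool,
      (sat (List.ofFn x) D = true ↔ sat (List.ofFn x) α = true ∧ SatT T x) := by
  classical
  have hm' : (0 : ℝ) < m := by exact_mod_cast hm
  have hρ0 : 0 < ρ := by linarith
  have hN1' : ((allLits n).length + 1) ^ kk ≤ N := by rw [length_allLits]; exact hN1
  set X := vs (toF n α) with hX
  have hiX : i ∉ X := fun h => disjoint_left.1 (hGX T hT) hi h
  obtain ⟨l0, hl0, hl0i⟩ := mem_vs.1 hi
  set v := l0.2 with hv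
  have hinj : Set.InjOn Prod.fst (T : Set (Fin n × Bool)) := card_image_iff.1 (hcons T hT)
  have hTv : ∀ l ∈ T, l.1 = i → l.2 = v := by
    intro l hl h
    have := hinj (by simpa using hl) (by simpa using hl0) (h.trans hl0i.symm)
    rw [this]
  have hivT : (i, v) ∈ T := by
    have : (i, v) = l0 := Prod.ext hl0i.symm rfl
    rw [this]; exact hl0
  set E : (Fin n → Bool) → Bool := fun x => decide (Iso G T i x) with hE
  have hE0 : 0 < mu E := lt_of_lt_of_le (by positivity) hIso
  -- kill lists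
  set Kl : List Lit → Prop := fun Z => (∀ l ∈ Z, l.1 < n ∧ l.1 ≠ i ∧ l.1 ∉ α.map Prod.fst) ∧
    ∀ B ∈ G, i ∈ vs B → B ≠ T → ∃ l ∈ B, l.1 ≠ i ∧ ((l.1 : ℕ), !l.2) ∈ Z with hKl
  have hkill : ∀ x, Iso G T i x → ∃ Z ∈ seeds N k (allLits n), Kl Z ∧
      sat (List.ofFn x) Z = true := by
    intro x hx
    have hx2 := hx.2
    have : Nonempty (Fin n × Bool) := ⟨l0⟩
    choose! w hw1 hw2 hw3 using hx2
    set K := (G.filter fun B => i ∈ vs B).erase T with hK
    have hKc : K.card ≤ k := (card_le_card (erase_subset _ _)).trans hread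
    refine ⟨K.toList.map fun B => (((w B).1 : ℕ), !(w B).2), ?_, ⟨?_, ?_⟩, ?_⟩
    · refine mem_seeds (le_trans (Nat.pow_le_pow_right (by omega) hk) hN1') ?_ ?_
      · rw [List.length_map, length_toList]; exact hKc
      · intro l hl
        obtain ⟨B, _, rfl⟩ := List.mem_map.1 hl
        exact mem_allLits.2 (w B).1.2
    · intro l hl
      obtain ⟨B, hB, rfl⟩ := List.mem_map.1 hl
      rw [mem_toList, hK, mem_erase, mem_filter] at hB
      refine ⟨(w B).1.2, fun h => hw2 B hB.2.1 hB.1 (Fin.ext h), ?_⟩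
      intro hc
      exact disjoint_left.1 (hGX B hB.2.1) (mem_vs.2 ⟨_, hw1 B hB.2.1 hB.1, rfl⟩)
        (mem_vs_toF.2 hc)
    · intro B hB hiB hBT
      refine ⟨w B, hw1 B hB hBT, hw2 B hB hBT, ?_⟩
      refine List.mem_map.2 ⟨B, ?_, rfl⟩
      rw [mem_toList, hK, mem_erase, mem_filter]
      exact ⟨hBT, hB, hiB⟩
    · rw [sat_iff]
      intro l hl
      obtain ⟨B, hB, rfl⟩ := List.mem_map.1 hl
      rw [mem_toList, hK, mem_erase, mem_filter] at hB
      rw [getElem?_ofFn]
      refine ⟨(w B).1.2, ?_⟩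
      have := hw3 B hB.2.1 hB.1
      simp only
      revert this
      generalize x (w B).1 = p
      generalize (w B).2 = p'
      cases p <;> cases p' <;> simp
  -- pigeonhole
  have hpig : ∃ Z ∈ seeds N k (allLits n), Kl Z ∧
      ρ * 2 ^ (α.length + 1) ≤ mu (fun x => E x && sat (List.ofFn x) Z) := by
    by_contra hcon
    push Not at hcon
    have h1 : mu E ≤ mu (fun x => ((seeds N k (allLits n)).filter fun Z => decide (Kl Z)).any
        fun Z => E x && sat (List.ofFn x) Z) := by
      refine mu_mono ?_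
      intro x hx
      have hx' : Iso G T i x := by simpa [hE] using hx
      obtain ⟨Z, hZ, hKZ, hs⟩ := hkill x hx'
      rw [List.any_eq_true]
      refine ⟨Z, List.mem_filter.2 ⟨hZ, by simpa using hKZ⟩, ?_⟩
      rw [Bool.and_eq_true]
      exact ⟨hx, hs⟩
    have h2 := mu_any_le ((seeds N k (allLits n)).filter fun Z => decide (Kl Z))
      (fun Z (x : Fin n → Bool) => E x && sat (List.ofFn x) Z)
    have h3 := sum_le_of_forall (((seeds N k (allLits n)).filter fun Z => decide (Kl Z)).map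
      fun Z => mu (fun x : Fin n → Bool => E x && sat (List.ofFn x) Z))
      (ρ * 2 ^ (α.length + 1)) (by
        intro y hy
        obtain ⟨Z, hZ, rfl⟩ := List.mem_map.1 hy
        obtain ⟨hZ1, hZ2⟩ := List.mem_filter.1 hZ
        exact (hcon Z hZ1 (by simpa using hZ2)).le)
    rw [List.length_map] at h3
    have h4 : (((seeds N k (allLits n)).filter fun Z => decide (Kl Z)).length : ℝ) ≤
        (2 * n + 1) ^ k := by
      have h5 := (List.length_filter_le (fun Z => decide (Kl Z)) (seeds N k (allLits n))).trans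
        (seeds_length hk hN1')
      rw [length_allLits] at h5
      exact_mod_cast h5
    have h6 : (((seeds N k (allLits n)).filter fun Z => decide (Kl Z)).length : ℝ) *
        (ρ * 2 ^ (α.length + 1)) ≤ (2 * n + 1) ^ k * (ρ * 2 ^ (α.length + 1)) :=
      mul_le_mul_of_nonneg_right h4 (by positivity)
    have h7 : ρ * (2 * (2 * (n : ℝ) + 1) ^ k * 2 ^ (α.length + 1)) =
        2 * ((2 * n + 1) ^ k * (ρ * 2 ^ (α.length + 1))) := by ring
    have h8 : 0 < (2 * (n : ℝ) + 1) ^ k * (ρ * 2 ^ (α.length + 1)) := by positivity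
    linarith
  obtain ⟨Z, hZs, hZK, hZρ⟩ := hpig
  obtain ⟨hZ1, hZ2⟩ := hZK
  set Z0 := Z ++ α with hZ0
  have hZ0n : ∀ l ∈ Z0, l.1 < n := by
    intro l hl
    rcases List.mem_append.1 hl with hl | hl
    · exact (hZ1 l hl).1
    · exact hαn l hl
  have hαi : ∀ l ∈ α, l.1 ≠ i := by
    intro l hl h
    exact hiX (mem_vs_toF.2 (List.mem_map.2 ⟨l, hl, h⟩))
  have hZ0i : ∀ l ∈ Z0, l.1 ≠ i := by
    intro l hl
    rcases List.mem_append.1 hl with hl | hl
    · exact (hZ1 l hl).2.1
    · exact hαi l hl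
  have hflpα : ∀ x, SatT (toF n α) (flp i x) ↔ SatT (toF n α) x := fun x => satT_flp hiX x
  -- killed terms fail
  have hdead : ∀ x : Fin n → Bool, sat (List.ofFn x) Z = true → ∀ B ∈ G, i ∈ vs B → B ≠ T →
      ¬ SatT B x := by
    intro x hx B hB hiB hBT hs
    obtain ⟨l, hl, _, hlZ⟩ := hZ2 B hB hiB hBT
    have h1 := sat_iff.1 hx _ hlZ
    rw [getElem?_ofFn] at h1
    have h2 := hs l hl
    obtain ⟨_, h1⟩ := h1
    simp only at h1
    have h1' : x l.1 = !l.2 := h1
    rw [h2] at h1'
    cases h3 : l.2 <;> simp [h3] at h1'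
  have hZflp : ∀ x : Fin n → Bool, sat (List.ofFn (flp i x)) Z = sat (List.ofFn x) Z :=
    fun x => sat_flp fun l hl => (hZ1 l hl).2.1
  -- no negative pivots
  have hno : ∀ x : Fin n → Bool, x i = !v → sat (List.ofFn x) Z = true →
      sat (List.ofFn x) α = true → g x = true → g (flp i x) = true := by
    intro x hxi hxZ hxα hgx
    have hxα' := (satT_toF hαn).1 hxα
    obtain ⟨B, hB, hs⟩ := (hgG x hxα').1 hgx
    rw [hgG _ ((hflpα x).2 hxα')]
    by_cases hiB : i ∈ vs B
    · by_cases hBT : B = T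
      · exfalso
        rw [hBT] at hs
        have := hs _ hivT
        simp only at this
        rw [hxi] at this
        cases hv' : v <;> simp [hv'] at this
      · exact absurd hs (hdead x hxZ B hB hiB hBT)
    · exact ⟨B, hB, (satT_flp hiB x).2 hs⟩
  -- pivots satisfy T
  have hpivT : ∀ x : Fin n → Bool, x i = v → sat (List.ofFn x) Z = true →
      sat (List.ofFn x) α = true → g x = true → g (flp i x) = false → SatT T x := by
    intro x _ hxZ hxα hgx hgf
    have hxα' := (satT_toF hαn).1 hxα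
    obtain ⟨B, hB, hs⟩ := (hgG x hxα').1 hgx
    by_cases hBT : B = T
    · rw [← hBT]; exact hs
    · exfalso
      by_cases hiB : i ∈ vs B
      · exact hdead x hxZ B hB hiB hBT hs
      · have : g (flp i x) = true := by
          rw [hgG _ ((hflpα x).2 hxα')]
          exact ⟨B, hB, (satT_flp hiB x).2 hs⟩
        rw [this] at hgf
        exact Bool.noConfusion hgf
  -- isolated points are pivots
  have hisopiv : ∀ x : Fin n → Bool, x i = v → Iso G T i x → sat (List.ofFn x) α = true →
      g x = true ∧ g (flp i x) = false := by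
    intro x hxi hIx hxα
    have hxα' := (satT_toF hαn).1 hxα
    constructor
    · rw [hgG x hxα']
      refine ⟨T, hT, ?_⟩
      intro l hl
      by_cases hli : l.1 = i
      · rw [hli, hxi, hTv l hl hli]
      · exact hIx.1 l hl hli
    · by_contra hcon
      rw [Bool.not_eq_false, hgG _ ((hflpα x).2 hxα')] at hcon
      obtain ⟨B, hB, hs⟩ := hcon
      by_cases hBT : B = T
      · rw [hBT] at hs
        have := hs _ hivT
        simp only at this
        rw [flp_same, hxi] at this
        cases hv' : v <;> simp [hv'] at this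
      · obtain ⟨l, hl, hli, hne⟩ := hIx.2 B hB hBT
        have := hs l hl
        rw [flp_ne hli] at this
        exact hne this
  set p := mu (pv g [] i v Z0) with hp
  -- lower bound for p
  have hpρ : ρ ≤ p := by
    have hvsc : (vs (insert (i, v) (toF n α))).card = (insert (i, v) (toF n α)).card := by
      have h1 : vs (insert (i, v) (toF n α)) = insert i X := by
        unfold vs
        rw [image_insert]
        rfl
      have h2 : (i, v) ∉ toF n α := fun h => hiX (mem_vs.2 ⟨_, h, rfl⟩)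
      rw [h1, card_insert_of_notMem hiX, card_insert_of_notMem h2, hX, vs_toF_card hαd hαn,
        toF_card_of_nodup (nodup_of_map hαd) hαn]
    have hcard : (insert (i, v) (toF n α)).card = α.length + 1 := by
      have h2 : (i, v) ∉ toF n α := fun h => hiX (mem_vs.2 ⟨_, h, rfl⟩)
      rw [card_insert_of_notMem h2, toF_card_of_nodup (nodup_of_map hαd) hαn]
    have h1 := indep_ge (insert (i, v) (toF n α)) hvsc
      (fun x => (E x && sat (List.ofFn x) Z) = true) (by
        intro j hj x
        have hj' : j = i ∨ j ∈ X := by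
          obtain ⟨l, hl, rfl⟩ := mem_vs.1 hj
          rcases mem_insert.1 hl with rfl | hl
          · exact Or.inl rfl
          · exact Or.inr (mem_vs.2 ⟨l, hl, rfl⟩)
        have hne : ∀ B ∈ G, ∀ l ∈ B, l.1 ≠ i → l.1 ≠ j := by
          intro B hB l hl hli hlj
          rcases hj' with h | h
          · exact hli (hlj.trans h)
          · exact disjoint_left.1 (hGX B hB) (mem_vs.2 ⟨l, hl, rfl⟩) (hlj ▸ h)
        have e1 : Iso G T i (flp j x) ↔ Iso G T i x := by
          unfold Iso
          refine and_congr ?_ ?_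
          · refine forall₂_congr fun l hl => ?_
            refine forall_congr' fun hli => ?_
            rw [flp_ne (hne T hT l hl hli)]
          · refine forall₂_congr fun B hB => ?_
            refine forall_congr' fun _ => ?_
            refine exists_congr fun l => ?_
            refine and_congr_right fun hl => ?_
            refine and_congr_right fun hli => ?_
            rw [flp_ne (hne B hB l hl hli)]
        have e2 : sat (List.ofFn (flp j x)) Z = sat (List.ofFn x) Z := by
          refine sat_flp ?_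
          intro l hl hlj
          rcases hj' with h | h
          · exact (hZ1 l hl).2.1 (by rw [hlj, h])
          · exact (hZ1 l hl).2.2 (by rw [hlj]; exact mem_vs_toF.1 h)
        rw [e2]
        simp only [hE, Bool.and_eq_true, decide_eq_true_iff, e1])
    rw [hcard] at h1
    have h2 : (univ.filter fun x => SatT (insert (i, v) (toF n α)) x ∧
        (E x && sat (List.ofFn x) Z) = true).card ≤
        (univ.filter fun x => pv g [] i v Z0 x = true).card := by
      refine card_le_card ?_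
      intro x hx
      rw [mem_filter, satT_insert, Bool.and_eq_true] at hx
      obtain ⟨_, ⟨hxi, hxα⟩, hEx, hxZ⟩ := hx
      have hIx : Iso G T i x := by simpa [hE] using hEx
      rw [mem_filter, pv_iff]
      have hxα' := (satT_toF hαn).2 hxα
      obtain ⟨a1, a2⟩ := hisopiv x hxi hIx hxα'
      exact ⟨mem_univ _, hxi, a1, rfl, a2, sat_append.2 ⟨hxZ, hxα'⟩⟩
    rw [mu_eq_div] at hZρ
    rw [hp, mu_eq_div, le_div_iff₀ (by positivity)]
    rw [le_div_iff₀ (by positivity)] at hZρ
    have h3 : ((univ.filter fun x : Fin n → Bool =>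
        (E x && sat (List.ofFn x) Z) = true).card : ℝ) ≤
        ((univ.filter fun x => pv g [] i v Z0 x = true).card : ℝ) * 2 ^ (α.length + 1) := by
      have := h1.trans (Nat.mul_le_mul_right _ h2)
      exact_mod_cast this
    have h4 : ρ * 2 ^ n * 2 ^ (α.length + 1) ≤
        ((univ.filter fun x => pv g [] i v Z0 x = true).card : ℝ) * 2 ^ (α.length + 1) := by
      refine le_trans (le_of_eq (by ring)) (hZρ.trans h3)
    exact le_of_mul_le_mul_right h4 (by positivity)
  have hp0 : 0 < p := by linarith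
  -- estimates
  set pe : List Lit → ℝ := fun Y => em ω (ev f true (((i : ℕ), v) :: Y) []) -
    em ω (ev f true (neg ((i : ℕ), v) :: Y) []) with hpe
  have hest : ∀ Y : List Lit, (∀ l ∈ Y, l.1 < n) → (∀ l ∈ Y, l.1 ≠ i) →
      (∀ l ∈ Z0, l ∈ Y) → |pe Y - mu (pv g [] i v Y)| < 4 * τ := by
    intro Y hYn hYi hYZ
    have h1 := abs_lt.1 (hrep true (((i : ℕ), v) :: Y) [] (by
      intro l hl
      rcases List.mem_cons.1 hl with rfl | hl
      · exact i.2
      · exact hYn l hl) (by simp) (by simp))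
    have h2 := abs_lt.1 (hrep true (neg ((i : ℕ), v) :: Y) [] (by
      intro l hl
      rcases List.mem_cons.1 hl with rfl | hl
      · exact i.2
      · exact hYn l hl) (by simp) (by simp))
    have h3 := pivot_identity5 (q := g) (i := i) (v := v) (Z := Y) hYi (by
      intro x hxi hxY hgx
      have := sat_mono hYZ hxY
      rw [hZ0, sat_append] at this
      exact hno x hxi this.1 this.2 hgx)
    have h4 := mu_ev_sub_le f g true (((i : ℕ), v) :: Y) []
    have h5 := mu_ev_sub_le g f true (((i : ℕ), v) :: Y) []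
    have h6 := mu_ev_sub_le f g true (neg ((i : ℕ), v) :: Y) []
    have h7 := mu_ev_sub_le g f true (neg ((i : ℕ), v) :: Y) []
    rw [dst_comm g f] at h5 h7
    simp only [hpe]
    rw [abs_lt]
    constructor <;> linarith
  have hpcnt : ∀ Y : List Lit, (pcnt (smp f ω) [] ((i : ℕ), v) Y : ℝ) = max (pe Y * m) 0 := by
    intro Y
    unfold pcnt
    rw [cnt_smp, cnt_smp]
    simp only [hpe]
    unfold em
    rw [← sub_div, div_mul_cancel₀ _ hm'.ne']
    change _ = max ((ec ω (ev f true (((i : ℕ), v) :: Y) []) : ℝ) -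
      (ec ω (ev f true (neg ((i : ℕ), v) :: Y) []) : ℝ)) 0
    change ((ec ω (ev f true (((i : ℕ), v) :: Y) []) -
      ec ω (ev f true (neg ((i : ℕ), v) :: Y) []) : ℕ) : ℝ) = _
    set c1 := ec ω (ev f true (((i : ℕ), v) :: Y) [])
    set c0 := ec ω (ev f true (neg ((i : ℕ), v) :: Y) [])
    rcases le_total c0 c1 with h1 | h1
    · have h1' : (c0 : ℝ) ≤ c1 := by exact_mod_cast h1
      rw [Nat.cast_sub h1, max_eq_left (by linarith)]
    · have h1' : (c1 : ℝ) ≤ c0 := by exact_mod_cast h1
      rw [Nat.sub_eq_zero_of_le h1, max_eq_right (by linarith)]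
      simp
  have hpeS := abs_lt.1 (hest Z0 hZ0n hZ0i (fun l hl => hl))
  rw [← hp] at hpeS
  have hpeS0 : 0 < pe Z0 := by linarith
  have hpcS : (pcnt (smp f ω) [] ((i : ℕ), v) Z0 : ℝ) = pe Z0 * m := by
    rw [hpcnt, max_eq_left (by positivity)]
  -- membership in freq4
  have hfreq : ∀ l, l ∈ freq4 (allLits n) (smp f ω) [] ((i : ℕ), v) Z0 ↔
      l.1 < n ∧ l.1 ≠ i ∧ 23 * pe Z0 ≤ 32 * pe (l :: Z0) := by
    intro l
    unfold freq4
    rw [List.mem_filter, Bool.and_eq_true, decide_eq_true_iff, mem_allLits]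
    refine and_congr_right fun _ => ?_
    refine and_congr (by simp) ?_
    have e : (23 * pcnt (smp f ω) [] ((i : ℕ), v) Z0 ≤
        32 * pcnt (smp f ω) [] ((i : ℕ), v) (l :: Z0)) ↔
        (23 * (pcnt (smp f ω) [] ((i : ℕ), v) Z0 : ℝ) ≤
        32 * (pcnt (smp f ω) [] ((i : ℕ), v) (l :: Z0) : ℝ)) := by exact_mod_cast Iff.rfl
    rw [e, hpcS, hpcnt]
    constructor
    · intro h1
      rcases le_total (pe (l :: Z0) * m) 0 with h2 | h2
      · rw [max_eq_right h2] at h1
        have : 0 < pe Z0 * m := by positivity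
        linarith
      · rw [max_eq_left h2] at h1
        have h3 : (23 * pe Z0) * m ≤ (32 * pe (l :: Z0)) * m := by linarith
        exact le_of_mul_le_mul_right h3 hm'
    · intro h1
      have h3 : (23 * pe Z0) * m ≤ (32 * pe (l :: Z0)) * m :=
        mul_le_mul_of_nonneg_right h1 hm'.le
      have h4 := le_max_left (pe (l :: Z0) * m) 0
      linarith
  have hconsn : ∀ l : Lit, l.1 < n → ∀ l' ∈ l :: Z0, l'.1 < n := by
    intro l hl l' hl'
    rcases List.mem_cons.1 hl' with rfl | hl'
    · exact hl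
    · exact hZ0n l' hl'
  have hconsi : ∀ l : Lit, l.1 ≠ i → ∀ l' ∈ l :: Z0, l'.1 ≠ i := by
    intro l hl l' hl'
    rcases List.mem_cons.1 hl' with rfl | hl'
    · exact hl
    · exact hZ0i l' hl'
  set Tr : List Lit := lits (T.filter fun l => l.1 ≠ i) with hTr
  have hTrn : ∀ l ∈ Tr, l.1 < n := fun l hl => lits_lt hl
  have hTri : ∀ l ∈ Tr, l.1 ≠ i := by
    intro l hl
    obtain ⟨l', hl', rfl⟩ := mem_lits.1 hl
    rw [mem_filter] at hl'
    intro hc
    exact hl'.2 (Fin.ext hc)
  have hTfreq : ∀ l ∈ Tr, l ∈ freq4 (allLits n) (smp f ω) [] ((i : ℕ), v) Z0 := by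
    intro l hl
    rw [hfreq]
    refine ⟨hTrn l hl, hTri l hl, ?_⟩
    have h2 := abs_lt.1 (hest (l :: Z0) (hconsn l (hTrn l hl)) (hconsi l (hTri l hl))
      (fun l' hl' => by simp [hl']))
    have h3 : mu (pv g [] i v (l :: Z0)) = p := by
      refine mu_congr ?_
      intro x
      rw [pv_iff, pv_iff, sat_cons, getElem?_ofFn]
      constructor
      · rintro ⟨a1, a2, a3, a4, a5, a6⟩
        exact ⟨a1, a2, a3, a4, a6⟩
      · rintro ⟨a1, a2, a3, a4, a5⟩
        refine ⟨a1, a2, a3, a4, ?_, a5⟩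
        rw [hZ0, sat_append] at a5
        have hs := hpivT x a1 a5.1 a5.2 a2 a4
        obtain ⟨l', hl', rfl⟩ := mem_lits.1 hl
        rw [mem_filter] at hl'
        exact ⟨l'.1.2, hs l' hl'.1⟩
    rw [h3] at h2
    linarith
  have hbias : ∀ l ∈ freq4 (allLits n) (smp f ω) [] ((i : ℕ), v) Z0,
      11 * p ≤ 16 * mu (pv g [] i v (l :: Z0)) := by
    intro l hl
    rw [hfreq] at hl
    have h2 := abs_lt.1 (hest (l :: Z0) (hconsn l hl.1) (hconsi l hl.2.1)
      (fun l' hl' => by simp [hl']))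
    linarith [hl.2.2]
  have hFn : ∀ l ∈ freq4 (allLits n) (smp f ω) [] ((i : ℕ), v) Z0, l.1 < n :=
    fun l hl => ((hfreq l).1 hl).1
  have hFcard : (toF n (freq4 (allLits n) (smp f ω) [] ((i : ℕ), v) Z0)).card =
      (freq4 (allLits n) (smp f ω) [] ((i : ℕ), v) Z0).length :=
    toF_card_of_nodup ((nodup_allLits n).filter _) hFn
  have hcardΩ : (0 : ℝ) < Fintype.card (Fin n → Bool) := by
    rw [Fintype.card_fun]
    simp
  have hctS : 0 < ct (pv g [] i v Z0) := by
    by_contra hcon
    have : ct (pv g [] i v Z0) = 0 := by omega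
    have : p = 0 := by rw [hp, mu, this]; simp
    linarith
  have hb := bias (pv g [] i v Z0) (toF n (freq4 (allLits n) (smp f ω) [] ((i : ℕ), v) Z0)) (by
    intro l hl
    have hl' := mem_toF.1 hl
    have h1 := hbias _ hl'
    have h2 : mu (fun x => pv g [] i v Z0 x && (x l.1 == l.2)) =
        mu (pv g [] i v (((l.1 : ℕ), l.2) :: Z0)) := by
      refine mu_congr ?_
      intro x
      rw [Bool.and_eq_true, pv_iff, pv_iff, sat_cons, getElem?_ofFn, beq_iff_eq]
      constructor
      · rintro ⟨⟨a1, a2, a3, a4, a5⟩, a6⟩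
        exact ⟨a1, a2, a3, a4, ⟨l.1.2, a6⟩, a5⟩
      · rintro ⟨a1, a2, a3, a4, ⟨_, a6⟩, a5⟩
        exact ⟨⟨a1, a2, a3, a4, a5⟩, a6⟩
    rw [← h2, hp] at h1
    unfold mu at h1
    rw [mul_div_assoc', mul_div_assoc', div_le_div_iff_of_pos_right hcardΩ] at h1
    exact_mod_cast h1) hctS
  rw [hFcard, ← hp] at hb
  have hpowN : 2 ^ (freq4 (allLits n) (smp f ω) [] ((i : ℕ), v) Z0).length ≤ N := by
    have h2 : ρ ^ 10 ≤ p ^ 10 := pow_le_pow_left₀ hρ0.le hpρ 10
    have h3 : (2 : ℝ) ^ (freq4 (allLits n) (smp f ω) [] ((i : ℕ), v) Z0).length * ρ ^ 10 ≤ 1 :=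
      le_trans (mul_le_mul_of_nonneg_left h2 (by positivity)) hb
    have h4 : (2 : ℝ) ^ (freq4 (allLits n) (smp f ω) [] ((i : ℕ), v) Z0).length ≤
        (1 / ρ) ^ 10 := by
      rw [one_div_pow, le_div_iff₀ (by positivity)]
      exact h3
    have h5 : (2 : ℝ) ^ (freq4 (allLits n) (smp f ω) [] ((i : ℕ), v) Z0).length ≤ N :=
      h4.trans hN2
    exact_mod_cast h5
  obtain ⟨W, hW, hWl⟩ := mem_subs hpowN (fun l => l ∈ Tr)
  set Cd : List Lit := ((i : ℕ), v) :: (W ++ α) with hCd
  have hWT : ∀ l, l ∈ W ↔ l ∈ Tr := by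
    intro l
    rw [hWl]
    exact ⟨fun h1 => h1.2, fun h1 => ⟨hTfreq l h1, h1⟩⟩
  have hsatC : ∀ x : Fin n → Bool, sat (List.ofFn x) Cd = true ↔
      sat (List.ofFn x) α = true ∧ SatT T x := by
    intro x
    rw [hCd, sat_cons, getElem?_ofFn, sat_append, sat_congr hWT, sat_lits]
    constructor
    · rintro ⟨⟨_, h1⟩, h2, h3⟩
      refine ⟨h3, ?_⟩
      intro l hl
      by_cases hli : l.1 = i
      · rw [hli, hTv l hl hli]
        exact h1
      · exact h2 l (mem_filter.2 ⟨hl, hli⟩)
    · rintro ⟨h3, h1⟩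
      exact ⟨⟨i.2, h1 _ hivT⟩, fun l hl => h1 l (mem_filter.1 hl).1, h3⟩
  have hCn : ∀ l ∈ Cd, l.1 < n := by
    intro l hl
    rcases List.mem_cons.1 hl with rfl | hl
    · exact i.2
    · rcases List.mem_append.1 hl with hl | hl
      · exact hTrn l ((hWT l).1 hl)
      · exact hαn l hl
  have hacc : tst A (smp f ω) Cd = true := by
    unfold tst
    rw [decide_eq_true_iff, cnt_smp, length_smp]
    have h1 : mu (ev f false Cd []) ≤ τ := by
      have h2 := mu_ev_sub_le f g false Cd []
      have h3 : mu (ev g false Cd []) = 0 := by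
        unfold mu ct
        rw [filter_false_of_mem]
        · simp
        · intro x _ hx
          rw [ev_iff, hsatC] at hx
          have : g x = true := by
            rw [hgG x ((satT_toF hαn).1 hx.2.1.1)]
            exact ⟨T, hT, hx.2.1.2⟩
          rw [this] at hx
          exact Bool.noConfusion hx.1
      linarith
    have h2 := (abs_lt.1 (hrep false Cd [] hCn (by simp) (by simp))).2
    have h3 : em ω (ev f false Cd []) ≤ 2 * τ := by linarith
    unfold em at h3
    rw [div_le_iff₀ hm'] at h3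
    have h4 : (ec ω (ev f false Cd []) : ℝ) * A ≤ m := by
      calc (ec ω (ev f false Cd []) : ℝ) * A ≤ (2 * τ * m) * A :=
            mul_le_mul_of_nonneg_right h3 (by positivity)
        _ = (2 * τ * A) * m := by ring
        _ ≤ 1 * m := mul_le_mul_of_nonneg_right hA hm'.le
        _ = m := one_mul _
    exact_mod_cast h4
  refine ⟨Cd, ?_, hsatC⟩
  unfold good5
  rw [List.mem_filter]
  refine ⟨?_, hacc⟩
  rw [List.mem_flatMap]
  refine ⟨((i : ℕ), v), mem_allLits.2 i.2, ?_⟩
  rw [List.mem_flatMap]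
  refine ⟨Z, seeds_mono hN1' hk hZs, ?_⟩
  unfold cands5
  rw [List.mem_map]
  exact ⟨W, hW, rfl⟩

end Pool.Agent.H.MP_cba12a_lc.MG
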