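import Pool.Agent.H.MP_cba12a_lc.S10.Cand10
import Pool.Agent.H.MP_cba12a_lc.MG.Core
import Pool.Agent.H.MP_cba12a_lc.MG.Det

/-!
Every needed term has a candidate.
-/

namespace Pool.Agent.H.MP_cba12a_lc.MG

open Finset Pool.Agent.H.MP_cba12a_lc

variable {n m : ℕ}

theorem lam_ok {k : ℕ} (hk : 1 ≤ k) : (3 : ℝ) * k * (3 / 4) ^ (4 * k) ≤ 1 := by
  rw [pow_mul]
  have e : ((3 : ℝ) / 4) ^ 4 = 81 / 256 := by norm_num
  rw [e]
  induction k, hk using Nat.le_induction with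
  | base => norm_num
  | succ k hk ih =>
    have hk' : (1 : ℝ) ≤ k := by exact_mod_cast hk
    rw [pow_succ]
    push_cast
    have h1 : (0 : ℝ) < (81 / 256) ^ k := by positivity
    nlinarith

/-- Every needed term that is short or long has a candidate. -/
theorem cand_a {a r t d N D L1 ℓ0 J W C1 K0 : ℕ} {τ : ℝ} {f g : (Fin n → Bool) → Bool}
    {ω : Fin m → Fin n → Bool}
    (hC1 : ∀ (n lam E0 : ℕ) (δ : ℝ)
      (G Gs : Finset (Finset (Fin n × Bool))) (Y : Finset (Fin n)),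
      (∀ T ∈ G, (vs T).card = T.card) → Codeg t d G → Gs ⊆ G → Y.card = kx10 t d →
      (∀ j ∈ Y, dg G j ≤ δ) → 2 ^ t * (kx10 t d : ℝ) * δ ≤ 1 → E0 ≤ 4 * (2 * t + 3) * lam →
      (∀ A ∈ Gs, (vs A ∩ Y).Nonempty → lam ≤ A.card ∧ (vs A ∩ Y).card ≤ t + 1) →
      mu (fun x => decide (∀ j ∈ Y, ∃ A ∈ Gs, j ∈ vs A ∧ SatT (outs Y A) x)) ≤
        C1 * ((2 ^ t * (kx10 t d : ℝ) * δ) ^ (t + 2) + (2 / 3) ^ E0))
    (hm : 0 < m) (ha : 1 ≤ a) (hτ : 0 < τ)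
    (hfg : dst f g ≤ τ) (hrep : Rep f ω 0 τ)
    (hN1 : (2 * n + 1) ^ kx10 t d ≤ N) (hN2 : (2 * n + 1) ^ Mx10 t d ≤ N)
    (hN3 : (2 * n + 1) ^ r ≤ N)
    (hK0 : t + Mx10 t d + 1 ≤ K0) (hW : 2 ^ (K0 * J) ≤ W) (hD : D = 256 * a)
    (hDτ : 8 * D * (2 ^ kx10 t d * (2 * τ)) * 2 ^ Mx10 t d * (W * 2 ^ L1) ≤ 1 / (32 * a))
    (hpa : ∀ ℓ : ℕ, ℓ0 ≤ ℓ → t ≤ ℓ / Th10 t d ∧
      kx10 t d + kx10 t d ^ (t + 1) * (d * (ℓ / Th10 t d)) + t + Mx10 t d ≤ ℓ ∧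
      2 ^ t * (kx10 t d : ℝ) * del10 t ℓ ≤ 1 ∧ 4 * ℓ ≤ 4 * (2 * t + 3) * (2 * q10 t ℓ) ∧
      1 ≤ ℓ)
    (hps : ∀ ℓ : ℕ, ℓ0 ≤ ℓ → 2 ^ (Mx10 t d + 1) * del10 t ℓ *
      (2 ^ t * (ℓ : ℝ) + 2 ^ (ℓ / Th10 t d) * (d * (ℓ : ℝ) ^ (t + 1))) ≤ 1 / (64 * a))
    (hpn : ∀ ℓ : ℕ, ℓ0 ≤ ℓ →
      C1 * ((2 ^ t * (kx10 t d : ℝ) * del10 t ℓ) ^ (t + 2) + (2 / 3) ^ (4 * ℓ)) ≤
        (1 / 2) ^ ℓ * (1 / (2 ^ 16 * a ^ 2 * 2 ^ Mx10 t d)))
    (α : List Lit) (G : Finset (Finset (Fin n × Bool)))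
    (hαd : (α.map Prod.fst).Nodup) (hαn : ∀ l ∈ α, l.1 < n)
    (hαl : α.length ≤ K0 * J)
    (h0 : Fam10 t d K0 (1 / (2 * (16 * a : ℕ))) (vs (toF n α)) G)
    (hirr : Irr G) (hgG : ∀ x, SatT (toF n α) x → (g x = true ↔ ∃ B ∈ G, SatT B x))
    (T : Finset (Fin n × Bool)) (hT : T ∈ G) (hgap : T.card ≤ r ∨ ℓ0 ≤ T.card)
    (hbig : ℓ0 ≤ T.card → ¬ Big G t (del10 t T.card) T) (hTL : T.card ≤ L1) :
    ∃ C ∈ cands10 N r (kx10 t d) (Mx10 t d) D n (smp f ω) α, ∀ x : Fin n → Bool,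
      (sat (List.ofFn x) C = true ↔ sat (List.ofFn x) α = true ∧ SatT T x) := by
  classical
  have h := h0.mono hK0
  have ha' : (1 : ℝ) ≤ a := by exact_mod_cast ha
  by_cases hTℓ : ℓ0 ≤ T.card
  · -- a long term
    have hκ : (1 : ℝ) / (2 * ((16 * a : ℕ) : ℝ)) = 1 / (32 * a) := by
      push_cast
      ring
    have hwt : (1 : ℝ) ≤ wt α * W := by
      have h1 : (2 : ℝ) ^ (K0 * J) ≤ W := by exact_mod_cast hW
      have h2 : (2 : ℝ) ^ α.length ≤ 2 ^ (K0 * J) :=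
        pow_le_pow_right₀ (by norm_num) hαl
      unfold wt
      calc (1 : ℝ) = (1 / 2) ^ α.length * 2 ^ α.length := by rw [← mul_pow]; norm_num
        _ ≤ (1 / 2) ^ α.length * W := mul_le_mul_of_nonneg_left (h2.trans h1) (by positivity)
    have hwF : (1 : ℝ) ≤ wF T * 2 ^ L1 := by
      unfold wF
      calc (1 : ℝ) = (1 / 2) ^ T.card * 2 ^ T.card := by rw [← mul_pow]; norm_num
        _ ≤ (1 / 2) ^ T.card * 2 ^ L1 :=
          mul_le_mul_of_nonneg_left (pow_le_pow_right₀ (by norm_num) hTL) (by positivity)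
    have hwt0 : 0 < wt α := by unfold wt; positivity
    have hwT := wF_pos T
    obtain ⟨p1, p2, p3, p4, p5⟩ := hpa _ hTℓ
    obtain ⟨y, hTy, hy⟩ := hirr T hT
    have hDR : (D : ℝ) = 256 * a := by rw [hD]; push_cast; ring
    obtain ⟨C, hC, hCx⟩ := detect10 (N := N) (D := D) (k := kx10 t d) (M := Mx10 t d)
      (p := T.card / Th10 t d) (Θ := Th10 t d) (δ := del10 t T.card)
      (ν := 1 / (2 ^ 16 * a ^ 2 * 2 ^ Mx10 t d)) hm h hαd hαn hgG hT hTy hy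
      (del10_pos t _).le (hbig hTℓ) p1 (by
        have hTh : 0 < Th10 t d := by unfold Th10; omega
        exact (Nat.lt_mul_div_succ T.card hTh).le) (by unfold Mx10; exact le_rfl) le_rfl p2
      (by
        rw [hκ]
        refine (hps _ hTℓ).trans (le_of_eq ?_)
        field_simp
        norm_num) (by
        intro Gs Y hGs hY hdg hsm
        exact noise_at10 hC1 h.cons h.codeg p3 p4 (hpn _ hTℓ) Gs Y hGs hY hdg hsm)
      (by positivity) hτ hfg hrep (by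
        rw [hκ, hDR, mul_one_div, le_div_iff₀ (by positivity)]
        linarith) (by
        rw [hκ, hDR]
        refine le_of_eq ?_
        field_simp
        norm_num) (by
        rw [hκ]
        set q : ℝ := 8 * D * (2 ^ kx10 t d * (2 * τ)) * 2 ^ Mx10 t d with hq
        have hq0 : 0 ≤ q := by rw [hq]; positivity
        have h1 : (1 : ℝ) ≤ (wt α * W) * (wF T * 2 ^ L1) := by nlinarith
        calc q ≤ q * ((wt α * W) * (wF T * 2 ^ L1)) := le_mul_of_one_le_right hq0 h1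
          _ = (wt α * wF T) * (q * (W * 2 ^ L1)) := by ring
          _ ≤ (wt α * wF T) * (1 / (32 * a)) :=
            mul_le_mul_of_nonneg_left hDτ (by positivity)) hN1 hN2
    exact ⟨C, List.mem_append_right _ hC, hCx⟩
  · -- a short term
    have hTr' : T.card ≤ r := hgap.resolve_right hTℓ
    refine ⟨lits T ++ α, List.mem_append_left _ ?_, ?_⟩
    · unfold shortC
      refine List.mem_map.2 ⟨lits T, ?_, rfl⟩
      exact mem_seeds (by rw [length_allLits]; exact hN3) (by rw [length_lits]; exact hTr')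
        (fun l hl => mem_allLits.2 (lits_lt hl))
    · intro x
      rw [sat_append, sat_lits, and_comm]

/-- Every term of middle length, with variables of small degree, has a candidate. -/
theorem cand_b {a d J W K0 ℓ0 ℓ1 μ A5 N5 : ℕ} {t : ℕ} {τ ρ : ℝ} {f g : (Fin n → Bool) → Bool}
    {ω : Fin m → Fin n → Bool} (hm : 0 < m) (ha : 1 ≤ a) (hd : 1 ≤ d) (hτ : 0 < τ)
    (hfg : dst f g ≤ τ) (hrep : Rep f ω 0 τ)
    (hK0 : 8 * d ^ 2 ≤ K0) (hW : 2 ^ (K0 * J) ≤ W)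
    (hρτ : 256 * τ ≤ ρ)
    (hρ : ρ * (32 * a * (2 * (2 * n + 1) ^ d * (2 * W)) * 9 ^ ℓ0) ≤ 1)
    (hN5 : (2 * n + 1) ^ d ≤ N5) (hN5' : (1 / ρ) ^ 10 ≤ (N5 : ℝ)) (hA5 : 2 * τ * A5 ≤ 1)
    (hℓ1 : 2 * ℓ0 + μ ≤ ℓ1)
    (hμ : (1 / 2 : ℝ) ^ μ ≤ (3 / 4) ^ (4 * d) * ((2 / 3) ^ (2 * ℓ0) * (1 / (32 * a))))
    (α : List Lit) (G Bt : Finset (Finset (Fin n × Bool)))
    (hαd : (α.map Prod.fst).Nodup) (hαn : ∀ l ∈ α, l.1 < n) (hαl : α.length ≤ K0 * J)
    (h : Fam10 t d K0 (1 / (2 * (16 * a : ℕ))) (vs (toF n α)) G)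
    (hirr : Irr G) (hgG : ∀ x, SatT (toF n α) x → (g x = true ↔ ∃ B ∈ G, SatT B x))
    (hM : Mid d ℓ1 G Bt) (T : Finset (Fin n × Bool)) (hT : T ∈ Bt) (hTl : T.card ≤ ℓ0) :
    ∃ C ∈ good5 A5 N5 d (allLits n) (smp f ω) α, ∀ x : Fin n → Bool,
      (sat (List.ofFn x) C = true ↔ sat (List.ofFn x) α = true ∧ SatT T x) := by
  classical
  have ha' : (1 : ℝ) ≤ a := by exact_mod_cast ha
  have hd' : (1 : ℝ) ≤ d := by exact_mod_cast hd
  have hTG := hM.sub hT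
  obtain ⟨z, hz, hz'⟩ := hirr T hTG
  have hρ0 : 0 < ρ := by linarith
  have hκ : (1 : ℝ) / (2 * ((16 * a : ℕ) : ℝ)) = 1 / (32 * a) := by
    push_cast
    ring
  have hnu : 1 / (32 * (a : ℝ)) * 2 ^ n ≤ nu G := by
    have h1 := h.low ∅ (by simp [vs]) (by simp [vs]) (Nat.zero_le _)
    have h2 : nn G ∅ = (nu G : ℝ) / 2 ^ n := by
      unfold nn nu
      rw [mu_eq_div]
      congr 2
      refine congrArg card ?_
      ext x
      simp [SatT]
    have h3 : wF (∅ : Finset (Fin n × Bool)) = 1 := by simp [wF]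
    rw [h2, h3, mul_one, hκ, le_div_iff₀ (by positivity)] at h1
    exact h1
  have hlam : (3 : ℝ) * d * (3 / 4) ^ (4 * d) ≤ 1 := lam_ok hd
  have hlen : ∀ A ∈ G, 2 * d * (4 * d) ≤ A.card := by
    intro A hA
    have h1 := h.long hA
    have h2 : 2 * d * (4 * d) = 8 * d ^ 2 := by ring
    omega
  obtain ⟨i, hi, hiso⟩ := isolation_m (lam := 4 * d) (μ := μ) (κ := 1 / (32 * a)) hd (by omega)
    hlam hM h.cons hlen hT hz hz' (by positivity) hnu (by omega) (by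
      refine hμ.trans (mul_le_mul_of_nonneg_left ?_ (by positivity))
      refine mul_le_mul_of_nonneg_right ?_ (by positivity)
      exact pow_le_pow_of_le_one (by norm_num) (by norm_num) (by omega))
  have hIsoMu : ρ * (2 * (2 * n + 1) ^ d * 2 ^ (α.length + 1)) ≤
      mu (fun y => decide (Iso G T i y)) := by
    rw [mu_eq_div]
    simp only [decide_eq_true_eq]
    have h1 : (nu G : ℝ) ≤ 9 ^ ℓ0 * ((univ.filter (Iso G T i)).card : ℝ) := by
      refine hiso.trans ?_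
      exact mul_le_mul_of_nonneg_right (pow_le_pow_right₀ (by norm_num) hTl) (by positivity)
    rw [le_div_iff₀ (by positivity)]
    have h3 : (2 : ℝ) ^ n ≤ 32 * a * (9 ^ ℓ0 * ((univ.filter (Iso G T i)).card : ℝ)) := by
      calc (2 : ℝ) ^ n = 32 * a * (1 / (32 * a) * 2 ^ n) := by field_simp
        _ ≤ _ := mul_le_mul_of_nonneg_left (hnu.trans h1) (by positivity)
    have h4 : (2 : ℝ) ^ α.length ≤ W := by
      have h5 : (2 : ℝ) ^ (K0 * J) ≤ W := by exact_mod_cast hW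
      exact (pow_le_pow_right₀ (by norm_num) hαl).trans h5
    calc ρ * (2 * (2 * n + 1) ^ d * 2 ^ (α.length + 1)) * 2 ^ n ≤
        ρ * (2 * (2 * n + 1) ^ d * (2 * W)) *
          (32 * a * (9 ^ ℓ0 * ((univ.filter (Iso G T i)).card : ℝ))) := by
          refine mul_le_mul ?_ h3 (by positivity) (by positivity)
          refine mul_le_mul_of_nonneg_left ?_ hρ0.le
          refine mul_le_mul_of_nonneg_left ?_ (by positivity)
          rw [pow_succ]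
          linarith
      _ = (ρ * (32 * a * (2 * (2 * n + 1) ^ d * (2 * W)) * 9 ^ ℓ0)) *
          ((univ.filter (Iso G T i)).card : ℝ) := by ring
      _ ≤ 1 * ((univ.filter (Iso G T i)).card : ℝ) :=
          mul_le_mul_of_nonneg_right hρ (by positivity)
      _ = _ := one_mul _
  exact detect_m (kk := d) hm hτ hρτ hαd hαn h.dis hgG h.cons (hM.deg T hT i hi) hTG hi
    hIsoMu hfg hrep le_rfl hN5 hN5' hA5

end Pool.Agent.H.MP_cba12a_lc.MG
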