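import Pool.Agent.H.MP_cba12a_lc.MG.Defs
import Pool.Agent.H.MP_cba12a_lc.ReadDefs
import Pool.Agent.H.MP_cba12a_lc.CodegDefs

/-!
The class `MixDNF` contains the classes `ReadK` and `CodegDNF`.
-/

namespace Pool.Agent.H.MP_cba12a_lc.MG

open Pool.Agent.H.MP_cba12a_lc

/-- For `t = 0` and `r = 0` the class consists of the DNF formulas in which every variable occurs
in at most `d` terms. -/
theorem readK_mix {n d ℓ : ℕ} {g : (Fin n → Bool) → Bool} (h : ReadK d g) : MixDNF 0 d 0 ℓ g := by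
  obtain ⟨F, h1, h2⟩ := h
  have h3 : ∀ i, (F.filter fun T => i ∈ T.image Prod.fst).card ≤ d := by
    intro i
    refine le_trans (le_of_eq (congrArg Finset.card ?_)) (h2 i)
    exact Finset.filter_congr fun T _ => by rw [Finset.mem_image]
  refine ⟨F, h1, ?_, fun T _ => Or.inr (Or.inr fun i _ => ⟨h3 i, fun A _ hi => ?_⟩)⟩
  · intro S hS
    obtain ⟨i, rfl⟩ := Finset.card_eq_one.1 hS
    refine le_trans (le_of_eq (congrArg Finset.card ?_)) (h3 i)
    exact Finset.filter_congr fun T _ => by rw [Finset.singleton_subset_iff]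
  · obtain ⟨l, hl, _⟩ := Finset.mem_image.1 hi
    exact Finset.card_pos.2 ⟨l, hl⟩

/-- The formulas without terms of a middle length belong to the class. -/
theorem codeg_mix {n t d r ℓ : ℕ} {g : (Fin n → Bool) → Bool} (h : CodegDNF t d r ℓ g) :
    MixDNF t d r ℓ g := by
  obtain ⟨F, h1, h2, h3⟩ := h
  exact ⟨F, h1, h2, fun T hT => (h3 T hT).imp_right Or.inl⟩

end Pool.Agent.H.MP_cba12a_lc.MG
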