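import Mathlib

/-!
DNF formulas in which few terms contain any given set of `t + 1` variables.
-/

namespace Pool.Agent.H.MP_cba12a_lc

/-- `g` is computed by a DNF formula, with any number of terms, in which any `t + 1` different
variables occur together in at most `d` terms and every term has at most `r` literals, or at least
`ℓ` literals, or contains only variables which occur in at most `d` terms and in no term with at
most `r` literals. The literal `(i, v)` holds at `x` when `x i = v`. -/
def MixDNF {n : ℕ} (t d r ℓ : ℕ) (g : (Fin n → Bool) → Bool) : Prop :=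
  ∃ F : Finset (Finset (Fin n × Bool)), (∀ x, g x = true ↔ ∃ T ∈ F, ∀ l ∈ T, x l.1 = l.2) ∧
    (∀ S : Finset (Fin n), S.card = t + 1 →
      (F.filter fun T => S ⊆ T.image Prod.fst).card ≤ d) ∧
    ∀ T ∈ F, T.card ≤ r ∨ ℓ ≤ T.card ∨ ∀ i ∈ T.image Prod.fst,
      (F.filter fun A => i ∈ A.image Prod.fst).card ≤ d ∧
        ∀ A ∈ F, i ∈ A.image Prod.fst → r < A.card

end Pool.Agent.H.MP_cba12a_lc
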