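import Pool.Agent.H.MP_cba12a_lc.Closure

/-!
The local lemma for a family in which every member that touches a member of `Fm` is itself in `Fm`
or very long.
-/

namespace Pool.Agent.H.MP_cba12a_lc.MG

open Finset Pool.Agent.H.MP_cba12a_lc

variable {n : ℕ}

/-- number of points that satisfy one conjunction -/
theorem card_satT_le (D : Finset (Fin n × Bool)) (Q : (Fin n → Bool) → Prop) [DecidablePred Q] :
    ((univ.filter fun x : Fin n → Bool => SatT D x ∧ Q x).card : ℝ) ≤
      (1 / 2) ^ D.card * 2 ^ n := by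
  classical
  have h1 := indep_le D (fun _ : Fin n → Bool => True) (fun _ _ _ => Iff.rfl)
  have h2 : (univ.filter fun x : Fin n → Bool => SatT D x ∧ Q x).card ≤
      (univ.filter fun x : Fin n → Bool => SatT D x ∧ True).card :=
    card_le_card fun x hx => by
      rw [mem_filter] at hx ⊢
      exact ⟨hx.1, hx.2.1, trivial⟩
  have h3 : (univ.filter fun _ : Fin n → Bool => True).card = 2 ^ n := by
    rw [filter_true_of_mem (fun _ _ => trivial), card_univ, Fintype.card_fun, Fintype.card_fin,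
      Fintype.card_bool]
  rw [h3] at h1
  have h4 : ((univ.filter fun x : Fin n → Bool => SatT D x ∧ Q x).card : ℝ) * 2 ^ D.card ≤
      2 ^ n := by
    exact_mod_cast (Nat.mul_le_mul_right _ h2).trans h1
  have e : ((univ.filter fun x : Fin n → Bool => SatT D x ∧ Q x).card : ℝ) =
      (1 / 2) ^ D.card * (((univ.filter fun x : Fin n → Bool => SatT D x ∧ Q x).card : ℝ) *
        2 ^ D.card) := by
    have : (1 / 2 : ℝ) ^ D.card * 2 ^ D.card = 1 := by rw [← mul_pow]; norm_num
    calc _ = ((1 / 2 : ℝ) ^ D.card * 2 ^ D.card) *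
        ((univ.filter fun x : Fin n → Bool => SatT D x ∧ Q x).card : ℝ) := by rw [this, one_mul]
      _ = _ := by ring
  rw [e]
  exact mul_le_mul_of_nonneg_left h4 (by positivity)

/-- **Local lemma**, mixed form. -/
theorem lllm {k lam μ : ℕ} {κ : ℝ} {F Fm : Finset (Finset (Fin n × Bool))}
    (hlen : ∀ A ∈ Fm, lam ≤ A.card)
    (hread : ∀ A ∈ Fm, ∀ i ∈ vs A, (F.filter fun A => i ∈ vs A).card ≤ k)
    (hnbr : ∀ A ∈ Fm, ∀ D ∈ F, (∃ i ∈ vs A, i ∈ vs D) → D ∈ Fm ∨ μ ≤ D.card)
    (hlam : (3 : ℝ) * k * (3 / 4) ^ lam ≤ 1)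
    (hμ : (1 / 2 : ℝ) ^ μ ≤ (3 / 4) ^ lam * κ) : ∀ (N : ℕ) (B : Finset (Finset (Fin n × Bool))),
    B.card ≤ N → B ⊆ F → κ * 2 ^ n ≤ nu B → ∀ A ∈ Fm, A ∉ B →
    ((univ.filter fun x : Fin n → Bool => SatT A x ∧ ∀ C ∈ B, ¬ SatT C x).card : ℝ) ≤
      (3 / 4) ^ A.card * nu B := by
  classical
  intro N
  induction N using Nat.strong_induction_on with
  | _ N ih =>
    intro B hBN hBF hBnu A hA hAB
    set B1 := B.filter (fun C => ∃ i ∈ vs A, i ∈ vs C) with hB1
    set B2 := B.filter (fun C => ¬ ∃ i ∈ vs A, i ∈ vs C) with hB2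
    -- upper bound with the independent part
    have h1 : (univ.filter fun x : Fin n → Bool => SatT A x ∧ ∀ C ∈ B, ¬ SatT C x).card *
        2 ^ A.card ≤ nu B2 := by
      calc (univ.filter fun x : Fin n → Bool => SatT A x ∧ ∀ C ∈ B, ¬ SatT C x).card *
          2 ^ A.card ≤ (univ.filter fun x : Fin n → Bool => SatT A x ∧
            ∀ C ∈ B2, ¬ SatT C x).card * 2 ^ A.card := by
            refine Nat.mul_le_mul_right _ (card_le_card ?_)
            intro x hx
            rw [mem_filter] at hx ⊢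
            exact ⟨hx.1, hx.2.1, fun C hC => hx.2.2 C (mem_filter.1 hC).1⟩
        _ ≤ nu B2 := by
            refine indep_le A _ ?_
            intro i hi x
            have : ∀ C ∈ B2, (SatT C (flp i x) ↔ SatT C x) := by
              intro C hC
              rw [hB2, mem_filter] at hC
              exact satT_flp (fun hc => hC.2 ⟨i, hi, hc⟩) x
            exact ⟨fun h C hC => fun hs => h C hC ((this C hC).2 hs),
              fun h C hC => fun hs => h C hC ((this C hC).1 hs)⟩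
    -- lower bound for nu B
    have hsub : ∀ C ⊆ B1, (1 - (3 / 4 : ℝ) ^ lam) ^ C.card * nu B2 ≤ nu (B2 ∪ C) := by
      intro C
      induction C using Finset.induction_on with
      | empty => intro _; simp
      | insert D C hD ihC =>
        intro hC
        have hCB : C ⊆ B1 := fun x hx => hC (mem_insert_of_mem hx)
        have hDB1 : D ∈ B1 := hC (mem_insert_self _ _)
        have ihC' := ihC hCB
        have hDB : D ∈ B := (mem_filter.1 hDB1).1
        have hDnot : D ∉ B2 ∪ C := by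
          rw [mem_union]
          rintro (h | h)
          · exact (mem_filter.1 h).2 (mem_filter.1 hDB1).2
          · exact hD h
        have hss : B2 ∪ C ⊆ B.erase D := by
          intro E hE
          rw [mem_erase]
          refine ⟨fun hc => hDnot (hc ▸ hE), ?_⟩
          rcases mem_union.1 hE with h | h
          · exact (mem_filter.1 h).1
          · exact (mem_filter.1 (hCB h)).1
        have hss' : B2 ∪ C ⊆ B := hss.trans (erase_subset _ _)
        have hnu' : κ * 2 ^ n ≤ nu (B2 ∪ C) := by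
          refine hBnu.trans ?_
          exact_mod_cast nu_mono hss'
        have hcard : (B2 ∪ C).card < N := by
          have h2 := card_le_card hss
          rw [card_erase_of_mem hDB] at h2
          have h3 : 0 < B.card := card_pos.2 ⟨D, hDB⟩
          omega
        have h4 : ((univ.filter fun x : Fin n → Bool => SatT D x ∧
            ∀ A ∈ B2 ∪ C, ¬ SatT A x).card : ℝ) ≤ (3 / 4) ^ lam * nu (B2 ∪ C) := by
          rcases hnbr A hA D (hBF hDB) (mem_filter.1 hDB1).2 with hDm | hDl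
          · have h4 := ih _ hcard (B2 ∪ C) le_rfl
              (fun E hE => hBF (hss' hE)) hnu' D hDm hDnot
            refine h4.trans (mul_le_mul_of_nonneg_right ?_ (by positivity))
            exact pow_le_pow_of_le_one (by norm_num) (by norm_num) (hlen D hDm)
          · refine (card_satT_le D (fun x => ∀ A ∈ B2 ∪ C, ¬ SatT A x)).trans ?_
            have h5 : (1 / 2 : ℝ) ^ D.card ≤ (1 / 2) ^ μ :=
              pow_le_pow_of_le_one (by norm_num) (by norm_num) hDl
            have h6 : (0 : ℝ) ≤ (3 / 4) ^ lam := by positivity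
            calc (1 / 2 : ℝ) ^ D.card * 2 ^ n ≤ ((3 / 4) ^ lam * κ) * 2 ^ n :=
                  mul_le_mul_of_nonneg_right (h5.trans hμ) (by positivity)
              _ = (3 / 4) ^ lam * (κ * 2 ^ n) := by ring
              _ ≤ _ := mul_le_mul_of_nonneg_left hnu' h6
        have h5 := nu_insert D (B2 ∪ C)
        have h5' : (nu (B2 ∪ C) : ℝ) = nu (insert D (B2 ∪ C)) +
            ((univ.filter fun x : Fin n → Bool => SatT D x ∧ ∀ A ∈ B2 ∪ C, ¬ SatT A x).card : ℝ) := by
          exact_mod_cast h5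
        have h7 : (0 : ℝ) ≤ nu (B2 ∪ C) := by positivity
        have h8 : (1 - (3 / 4 : ℝ) ^ lam) * nu (B2 ∪ C) ≤ nu (insert D (B2 ∪ C)) := by
          linarith
        have h9 : (0 : ℝ) ≤ 1 - (3 / 4) ^ lam := by
          have : (3 / 4 : ℝ) ^ lam ≤ 1 := pow_le_one₀ (by norm_num) (by norm_num)
          linarith
        rw [card_insert_of_notMem hD, pow_succ, union_insert]
        calc (1 - (3 / 4 : ℝ) ^ lam) ^ C.card * (1 - (3 / 4) ^ lam) * nu B2 =
            (1 - (3 / 4 : ℝ) ^ lam) * ((1 - (3 / 4 : ℝ) ^ lam) ^ C.card * nu B2) := by ring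
          _ ≤ (1 - (3 / 4 : ℝ) ^ lam) * nu (B2 ∪ C) := mul_le_mul_of_nonneg_left ihC' h9
          _ ≤ _ := h8
    have hBeq : B2 ∪ B1 = B := by
      rw [hB1, hB2, union_comm]
      exact filter_union_filter_not_eq _ _
    have h2 := hsub B1 (subset_refl _)
    rw [hBeq] at h2
    have h3 : B1.card ≤ k * (vs A).card := by
      calc B1.card ≤ ((vs A).biUnion fun i => F.filter fun C => i ∈ vs C).card := by
            refine card_le_card ?_
            intro C hC
            rw [hB1, mem_filter] at hC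
            obtain ⟨hC, i, hi, hiC⟩ := hC
            rw [mem_biUnion]
            exact ⟨i, hi, mem_filter.2 ⟨hBF hC, hiC⟩⟩
        _ ≤ ∑ i ∈ vs A, (F.filter fun C => i ∈ vs C).card := card_biUnion_le
        _ ≤ ∑ _i ∈ vs A, k := sum_le_sum fun i hi => hread A hA i hi
        _ = k * (vs A).card := by rw [sum_const, smul_eq_mul, mul_comm]
    have h3' : B1.card ≤ k * A.card := h3.trans (Nat.mul_le_mul_left _ (vs_card_le A))
    have h9 : (0 : ℝ) ≤ 1 - (3 / 4) ^ lam := by
      have : (3 / 4 : ℝ) ^ lam ≤ 1 := pow_le_one₀ (by norm_num) (by norm_num)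
      linarith
    have h4 : (2 / 3 : ℝ) ^ A.card ≤ (1 - (3 / 4) ^ lam) ^ B1.card := by
      refine (bern hlam A.card).trans ?_
      refine pow_le_pow_of_le_one h9 ?_ h3'
      have : (0 : ℝ) ≤ (3 / 4) ^ lam := by positivity
      linarith
    have h5 : (2 / 3 : ℝ) ^ A.card * nu B2 ≤ nu B :=
      (mul_le_mul_of_nonneg_right h4 (by positivity)).trans h2
    have h1' : ((univ.filter fun x : Fin n → Bool => SatT A x ∧ ∀ C ∈ B, ¬ SatT C x).card : ℝ) *
        2 ^ A.card ≤ nu B2 := by exact_mod_cast h1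
    have e : (3 / 4 : ℝ) ^ A.card = (1 / 2) ^ A.card * (3 / 2) ^ A.card := by
      rw [← mul_pow]; norm_num
    have e2 : (3 / 2 : ℝ) ^ A.card * (2 / 3) ^ A.card = 1 := by
      rw [← mul_pow]; norm_num
    have e3 : (1 / 2 : ℝ) ^ A.card * 2 ^ A.card = 1 := by
      rw [← mul_pow]; norm_num
    have h6 : (nu B2 : ℝ) ≤ (3 / 2) ^ A.card * nu B := by
      calc (nu B2 : ℝ) = (3 / 2 : ℝ) ^ A.card * (2 / 3) ^ A.card * nu B2 := by rw [e2, one_mul]
        _ = (3 / 2 : ℝ) ^ A.card * ((2 / 3) ^ A.card * nu B2) := by ring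
        _ ≤ _ := mul_le_mul_of_nonneg_left h5 (by positivity)
    calc ((univ.filter fun x : Fin n → Bool => SatT A x ∧ ∀ C ∈ B, ¬ SatT C x).card : ℝ) =
        (1 / 2 : ℝ) ^ A.card * (((univ.filter fun x : Fin n → Bool => SatT A x ∧
          ∀ C ∈ B, ¬ SatT C x).card : ℝ) * 2 ^ A.card) := by
          rw [mul_comm, mul_assoc, mul_comm ((2 : ℝ) ^ A.card), e3, mul_one]
      _ ≤ (1 / 2 : ℝ) ^ A.card * nu B2 := mul_le_mul_of_nonneg_left h1' (by positivity)
      _ ≤ (1 / 2 : ℝ) ^ A.card * ((3 / 2) ^ A.card * nu B) :=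
          mul_le_mul_of_nonneg_left h6 (by positivity)
      _ = _ := by rw [e]; ring

/-- Adding few terms to a family does not decrease `nu` much. -/
theorem nu_union_ge_m {k lam μ K : ℕ} {κ : ℝ} {F Fm : Finset (Finset (Fin n × Bool))}
    (hlen : ∀ A ∈ Fm, lam ≤ A.card)
    (hread : ∀ A ∈ Fm, ∀ i ∈ vs A, (F.filter fun A => i ∈ vs A).card ≤ k)
    (hnbr : ∀ A ∈ Fm, ∀ D ∈ F, (∃ i ∈ vs A, i ∈ vs D) → D ∈ Fm ∨ μ ≤ D.card)
    (hlam : (3 : ℝ) * k * (3 / 4) ^ lam ≤ 1)
    (hμ : (1 / 2 : ℝ) ^ μ ≤ (3 / 4) ^ lam * κ) (O : Finset (Finset (Fin n × Bool))) (hO : O ⊆ F)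
    (hFO : ∀ D ∈ F \ O, D ∈ Fm ∨ μ ≤ D.card) (hK : (F \ O).card ≤ K)
    (hκ : κ * 2 ^ n ≤ (1 - (3 / 4 : ℝ) ^ lam) ^ K * nu O) :
    ∀ C ⊆ F \ O, (1 - (3 / 4 : ℝ) ^ lam) ^ C.card * nu O ≤ nu (O ∪ C) := by
  classical
  have h9 : (0 : ℝ) ≤ 1 - (3 / 4) ^ lam := by
    have : (3 / 4 : ℝ) ^ lam ≤ 1 := pow_le_one₀ (by norm_num) (by norm_num)
    linarith
  have h10 : (1 : ℝ) - (3 / 4) ^ lam ≤ 1 := by
    have : (0 : ℝ) ≤ (3 / 4) ^ lam := by positivity
    linarith
  intro C
  induction C using Finset.induction_on with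
  | empty => intro _; simp
  | insert D C hD ihC =>
    intro hC
    have hCF : C ⊆ F \ O := fun x hx => hC (mem_insert_of_mem hx)
    have hDFO := hC (mem_insert_self D C)
    have hDF := mem_sdiff.1 hDFO
    have ihC' := ihC hCF
    have hDnot : D ∉ O ∪ C := by
      rw [mem_union]
      rintro (h | h)
      · exact hDF.2 h
      · exact hD h
    have hnu' : κ * 2 ^ n ≤ nu (O ∪ C) := by
      refine hκ.trans (le_trans ?_ ihC')
      refine mul_le_mul_of_nonneg_right ?_ (by positivity)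
      exact pow_le_pow_of_le_one h9 h10 ((card_le_card hCF).trans hK)
    have h4 : ((univ.filter fun x : Fin n → Bool => SatT D x ∧
        ∀ A ∈ O ∪ C, ¬ SatT A x).card : ℝ) ≤ (3 / 4) ^ lam * nu (O ∪ C) := by
      rcases hFO D hDFO with hDm | hDl
      · refine (lllm hlen hread hnbr hlam hμ (O ∪ C).card (O ∪ C) le_rfl
          (union_subset hO fun x hx => (mem_sdiff.1 (hCF hx)).1) hnu' D hDm hDnot).trans
          (mul_le_mul_of_nonneg_right ?_ (by positivity))
        exact pow_le_pow_of_le_one (by norm_num) (by norm_num) (hlen D hDm)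
      · refine (card_satT_le D (fun x => ∀ A ∈ O ∪ C, ¬ SatT A x)).trans ?_
        have h5 : (1 / 2 : ℝ) ^ D.card ≤ (1 / 2) ^ μ :=
          pow_le_pow_of_le_one (by norm_num) (by norm_num) hDl
        have h6 : (0 : ℝ) ≤ (3 / 4) ^ lam := by positivity
        calc (1 / 2 : ℝ) ^ D.card * 2 ^ n ≤ ((3 / 4) ^ lam * κ) * 2 ^ n :=
              mul_le_mul_of_nonneg_right (h5.trans hμ) (by positivity)
          _ = (3 / 4) ^ lam * (κ * 2 ^ n) := by ring
          _ ≤ _ := mul_le_mul_of_nonneg_left hnu' h6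
    have h5 := nu_insert D (O ∪ C)
    have h5' : (nu (O ∪ C) : ℝ) = nu (insert D (O ∪ C)) +
        ((univ.filter fun x : Fin n → Bool => SatT D x ∧ ∀ A ∈ O ∪ C, ¬ SatT A x).card : ℝ) := by
      exact_mod_cast h5
    have h7 : (0 : ℝ) ≤ nu (O ∪ C) := by positivity
    have h8 : (1 - (3 / 4 : ℝ) ^ lam) * nu (O ∪ C) ≤ nu (insert D (O ∪ C)) := by
      linarith
    rw [card_insert_of_notMem hD, pow_succ, union_insert]
    calc (1 - (3 / 4 : ℝ) ^ lam) ^ C.card * (1 - (3 / 4) ^ lam) * nu O =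
        (1 - (3 / 4 : ℝ) ^ lam) * ((1 - (3 / 4 : ℝ) ^ lam) ^ C.card * nu O) := by ring
      _ ≤ (1 - (3 / 4 : ℝ) ^ lam) * nu (O ∪ C) := mul_le_mul_of_nonneg_left ihC' h9
      _ ≤ _ := h8

end Pool.Agent.H.MP_cba12a_lc.MG
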